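import Pool.Agent.H.MP_950aae_pr.Defs

/-! Product Bernoulli measure: the BK inequality (adapted from the team file for MP_1775a6_pr). -/

namespace Pool.Agent.H.MP_950aae_pr

open MeasureTheory ProbabilityTheory Filter Topology Set
open scoped ENNReal

instance (p : unitInterval) : IsProbabilityMeasure (nu p) := ⟨by
  simp only [nu, Measure.coe_add, Measure.coe_smul, Pi.add_apply, Pi.smul_apply, measure_univ,
    smul_eq_mul, mul_one]
  rw [← ENNReal.ofReal_add p.2.1 (sub_nonneg.2 p.2.2)]; simp⟩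

instance (p : unitInterval) (ι : Type) : IsProbabilityMeasure (P p ι) := by
  unfold P; infer_instance

variable {ι : Type} {p : unitInterval}

def Dep (E : Set ι) (A : Set (ι → Bool)) : Prop := MeasurableSet[cylinderEvents E] A

lemma Dep.meas {E : Set ι} {A : Set (ι → Bool)} (h : Dep E A) : MeasurableSet A :=
  cylinderEvents_le_pi _ h

lemma Dep.mono {E E' : Set ι} {A : Set (ι → Bool)} (h : Dep E A) (h' : E ⊆ E') : Dep E' A :=
  cylinderEvents_mono h' _ h

lemma Dep.inter {E : Set ι} {A B : Set (ι → Bool)} (h : Dep E A) (h' : Dep E B) : Dep E (A ∩ B) :=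
  @MeasurableSet.inter _ (cylinderEvents E) _ _ h h'

lemma Dep.union {E : Set ι} {A B : Set (ι → Bool)} (h : Dep E A) (h' : Dep E B) : Dep E (A ∪ B) :=
  @MeasurableSet.union _ (cylinderEvents E) _ _ h h'

lemma Dep.compl {E : Set ι} {A : Set (ι → Bool)} (h : Dep E A) : Dep E Aᶜ :=
  @MeasurableSet.compl _ _ (cylinderEvents E) h

lemma dep_val {E : Set ι} {e : ι} (h : e ∈ E) (b : Bool) : Dep E {ω | ω e = b} :=
  measurable_cylinderEvent_apply (X := fun _ : ι => Bool) h (measurableSet_singleton b)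

lemma indep {S T : Set ι} (h : Disjoint S T) {A B : Set (ι → Bool)} (hA : Dep S A)
    (hB : Dep T B) : P p ι (A ∩ B) = P p ι A * P p ι B :=
  (Indep_iff _ _ _).mp (indep_iSup_of_disjoint (fun i => (measurable_pi_apply i).comap_le)
    (iIndepFun_infinitePi (X := fun _ u => u) fun _ => measurable_id).iIndep h) A B hA hB

lemma P_val (e : ι) (b : Bool) : P p ι {ω | ω e = b} = nu p {b} :=
  (measurePreserving_eval_infinitePi (fun _ : ι => nu p) e).measure_preimage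
    (measurableSet_singleton b).nullMeasurableSet

lemma P_true (e : ι) : P p ι {ω | ω e = true} = ENNReal.ofReal p := by rw [P_val]; simp [nu]
lemma P_false (e : ι) : P p ι {ω | ω e = false} = ENNReal.ofReal (1 - p) := by rw [P_val]; simp [nu]

lemma P_map {κ : Type} {f : κ → ι} (hf : f.Injective) {A : Set (κ → Bool)} (hA : MeasurableSet A) :
    P p ι ((fun ω i => ω (f i)) ⁻¹' A) = P p κ A := by
  rw [← Measure.map_apply (by fun_prop) hA, P, Measure.map_infinitePi_infinitePi_of_inj hf]; rfl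

def Op (G : Finset ι) (ω : ι → Bool) : Prop := ∀ e ∈ G, ω e = true

def Up (F : Set ι) (𝓐 : Set (Finset ι)) : Set (ι → Bool) := {ω | ∃ G ∈ 𝓐, ↑G ⊆ F ∧ Op G ω}

def Box (F : Set ι) (𝓐 𝓑 : Set (Finset ι)) : Set (ι → Bool) :=
  {ω | ∃ G ∈ 𝓐, ∃ H ∈ 𝓑, ↑G ⊆ F ∧ ↑H ⊆ F ∧ Disjoint G H ∧ Op G ω ∧ Op H ω}

variable [Countable ι]

lemma dep_op {F : Set ι} {G : Finset ι} (h : ↑G ⊆ F) : Dep F {ω | Op G ω} := by
  have : {ω | Op G ω} = ⋂ e ∈ G, {ω : ι → Bool | ω e = true} := by ext; simp [Op]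
  rw [this]
  exact MeasurableSet.biInter G.countable_toSet fun e he => dep_val (h he) true

lemma dep_up (F : Set ι) (𝓐 : Set (Finset ι)) : Dep F (Up F 𝓐) := by
  have : Up F 𝓐 = ⋃ G : Finset ι, ⋃ _ : G ∈ 𝓐 ∧ ↑G ⊆ F, {ω | Op G ω} := by
    ext; simp [Up, and_assoc]
  rw [this]
  exact MeasurableSet.iUnion fun G => MeasurableSet.iUnion fun h => dep_op h.2

lemma dep_box (F : Set ι) (𝓐 𝓑 : Set (Finset ι)) : Dep F (Box F 𝓐 𝓑) := by
  have : Box F 𝓐 𝓑 = ⋃ G : Finset ι, ⋃ H : Finset ι,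
      ⋃ _ : G ∈ 𝓐 ∧ H ∈ 𝓑 ∧ ↑G ⊆ F ∧ ↑H ⊆ F ∧ Disjoint G H, {ω | Op G ω} ∩ {ω | Op H ω} := by
    ext; simp only [Box, mem_ofPred_eq, mem_iUnion, mem_inter_iff]
    constructor
    · rintro ⟨G, a, H, b, c, d, e, f, g⟩; exact ⟨G, H, ⟨a, b, c, d, e⟩, f, g⟩
    · rintro ⟨G, H, ⟨a, b, c, d, e⟩, f, g⟩; exact ⟨G, a, H, b, c, d, e, f, g⟩
  rw [this]
  exact MeasurableSet.iUnion fun G => MeasurableSet.iUnion fun H => MeasurableSet.iUnion fun h =>
    (dep_op h.2.2.1).inter (dep_op h.2.2.2.1)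

lemma split {F : Set ι} {e : ι} (he : e ∉ F) {X Y Z : Set (ι → Bool)} (hX : Dep F X) (hY : Dep F Y)
    (h : ∀ ω, ω ∈ Z ↔ if ω e = true then ω ∈ X else ω ∈ Y) :
    (P p ι).real Z = p * (P p ι).real X + (1 - p) * (P p ι).real Y := by
  have hd : Disjoint {e} F := by simpa using he
  have : Z = ({ω | ω e = true} ∩ X) ∪ ({ω | ω e = false} ∩ Y) := by
    ext ω; rw [h]; cases k : ω e <;> simp [k]
  have h1 := indep (p := p) hd (dep_val (mem_singleton e) true) hX
  have h2 := indep (p := p) hd (dep_val (mem_singleton e) false) hY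
  have h3 : Disjoint ({ω : ι → Bool | ω e = true} ∩ X) ({ω | ω e = false} ∩ Y) := by
    rw [Set.disjoint_left]; rintro ω ⟨a, -⟩ ⟨b, -⟩
    rw [mem_ofPred_eq] at a b; simp [a] at b
  have h4 := measure_union (μ := P p ι) h3 ((dep_val (mem_univ e) false).meas.inter hY.meas)
  rw [h1, h2, P_true, P_false, ← this] at h4
  simp only [Measure.real]
  rw [h4, ENNReal.toReal_add (ENNReal.mul_ne_top (by simp) (measure_ne_top _ _))
    (ENNReal.mul_ne_top (by simp) (measure_ne_top _ _)), ENNReal.toReal_mul, ENNReal.toReal_mul,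
    ENNReal.toReal_ofReal p.2.1, ENNReal.toReal_ofReal (sub_nonneg.2 p.2.2)]

open Classical in
def one (e : ι) (𝓐 : Set (Finset ι)) : Set (Finset ι) := {G | G ∈ 𝓐 ∨ insert e G ∈ 𝓐}

omit [Countable ι] in
lemma up_one (F : Set ι) (e : ι) (𝓐 : Set (Finset ι)) : Up F 𝓐 ⊆ Up F (one e 𝓐) :=
  fun _ ⟨G, a, b⟩ => ⟨G, Or.inl a, b⟩

omit [Countable ι] in
lemma up_insert (F : Set ι) (e : ι) (𝓐 : Set (Finset ι)) (ω : ι → Bool) :
    ω ∈ Up (insert e F) 𝓐 ↔ if ω e = true then ω ∈ Up F (one e 𝓐) else ω ∈ Up F 𝓐 := by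
  classical
  split_ifs with k
  · constructor
    · rintro ⟨G, a, b, c⟩
      refine ⟨G.erase e, ?_, fun x hx => ?_, fun x hx => c x (Finset.mem_of_mem_erase hx)⟩
      · by_cases h : e ∈ G
        · right; convert a; exact Finset.insert_erase h
        · left; rwa [Finset.erase_eq_of_notMem h]
      · simp only [Finset.coe_erase, Set.mem_sdiff, mem_singleton_iff] at hx
        exact (b hx.1).resolve_left hx.2
    · rintro ⟨G, a | a, b, c⟩
      · exact ⟨G, a, b.trans (subset_insert _ _), c⟩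
      · refine ⟨_, a, by simpa using insert_subset_insert b, fun x hx => ?_⟩
        rcases Finset.mem_insert.1 hx with rfl | hx
        exacts [k, c x hx]
  · constructor
    · rintro ⟨G, a, b, c⟩
      exact ⟨G, a, fun x hx => (b hx).resolve_left (by rintro rfl; exact k (c _ hx)), c⟩
    · rintro ⟨G, a, b, c⟩
      exact ⟨G, a, b.trans (subset_insert _ _), c⟩

lemma up_real {F : Set ι} {e : ι} (he : e ∉ F) (𝓐 : Set (Finset ι)) :
    (P p ι).real (Up (insert e F) 𝓐) =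
      p * (P p ι).real (Up F (one e 𝓐)) + (1 - p) * (P p ι).real (Up F 𝓐) :=
  split he (dep_up _ _) (dep_up _ _) (up_insert F e 𝓐)

omit [Countable ι] in
lemma up_empty (𝓐 : Set (Finset ι)) : Up ∅ 𝓐 = ∅ ∨ Up ∅ 𝓐 = univ := by
  by_cases h : ∅ ∈ 𝓐
  · right; exact eq_univ_of_forall fun ω => ⟨∅, h, by simp, by simp [Op]⟩
  · left; refine eq_empty_of_forall_notMem ?_
    rintro ω ⟨G, a, b, -⟩
    rw [subset_empty_iff, Finset.coe_eq_empty] at b
    exact h (b ▸ a)

lemma alg2 {p a0 a1 b0 b1 c x y u v : ℝ} (p0 : 0 ≤ p) (p1 : p ≤ 1) (h0 : c ≤ a0 * b0)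
    (h1 : x ≤ a1 * b0) (h2 : y ≤ a0 * b1) (h5 : u ≤ a1 * b1) (h3 : u + v = x + y) (h4 : c ≤ v) :
    p * u + (1 - p) * c ≤ (p * a1 + (1 - p) * a0) * (p * b1 + (1 - p) * b0) := by
  have q0 : 0 ≤ 1 - p := by linarith
  have e1 := mul_le_mul_of_nonneg_left h0 (mul_nonneg q0 q0)
  have e2 := mul_le_mul_of_nonneg_left h5 (mul_nonneg p0 p0)
  have e3 := mul_le_mul_of_nonneg_left (show u + c ≤ a1 * b0 + a0 * b1 by linarith)
    (mul_nonneg p0 q0)
  nlinarith

lemma bk_fin (F : Finset ι) : ∀ 𝓐 𝓑 : Set (Finset ι),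
    (P p ι).real (Box F 𝓐 𝓑) ≤ (P p ι).real (Up F 𝓐) * (P p ι).real (Up F 𝓑) := by
  classical
  induction F using Finset.induction_on with
  | empty =>
    intro 𝓐 𝓑
    have : Box (∅ : Finset ι) 𝓐 𝓑 ⊆ Up (∅ : Finset ι) 𝓐 ∩ Up (∅ : Finset ι) 𝓑 :=
      fun ω ⟨G, a, H, b, c, d, _, f, g⟩ => ⟨⟨G, a, c, f⟩, H, b, d, g⟩
    refine (measureReal_mono (μ := P p ι) this (measure_ne_top _ _)).trans ?_
    rw [Finset.coe_empty]
    rcases up_empty 𝓐 with h | h <;> simp [h]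
  | insert e F he ih =>
    intro 𝓐 𝓑
    have d1 := dep_box (F : Set ι) (one e 𝓐) 𝓑
    have d2 := dep_box (F : Set ι) 𝓐 (one e 𝓑)
    have he' : e ∉ (F : Set ι) := he
    have h1 := split (p := p) he' (d1.union d2) (dep_box (F : Set ι) 𝓐 𝓑) (Z := {ω | if ω e = true then
      ω ∈ Box F (one e 𝓐) 𝓑 ∪ Box F 𝓐 (one e 𝓑) else ω ∈ Box F 𝓐 𝓑}) fun ω => Iff.rfl
    have h2 : Box (insert e F : Finset ι) 𝓐 𝓑 ⊆ {ω | if ω e = true then
        ω ∈ Box F (one e 𝓐) 𝓑 ∪ Box F 𝓐 (one e 𝓑) else ω ∈ Box F 𝓐 𝓑} := by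
      rintro ω ⟨G, a, H, b, c, d, k, f, g⟩
      rw [Finset.coe_insert] at c d
      have t : ∀ G : Finset ι, ↑G ⊆ insert e (F : Set ι) → e ∉ G → ↑G ⊆ (F : Set ι) :=
        fun G c h x hx => (c hx).resolve_left (by rintro rfl; exact h hx)
      have t' : ∀ G : Finset ι, ↑G ⊆ insert e (F : Set ι) → ↑(G.erase e) ⊆ (F : Set ι) :=
        fun G c => t _ ((Finset.coe_subset.2 (G.erase_subset e)).trans c) (by simp)
      rw [mem_ofPred_eq]
      split_ifs with w
      · by_cases hG : e ∈ G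
        · exact Or.inl ⟨G.erase e, Or.inr (by convert a; exact Finset.insert_erase hG), H, b,
            t' G c, t H d (Finset.disjoint_left.1 k hG), k.mono_left (G.erase_subset e),
            fun x hx => f x (Finset.mem_of_mem_erase hx), g⟩
        · refine Or.inr ⟨G, a, H.erase e, ?_, t G c hG, t' H d, k.mono_right (H.erase_subset e), f,
            fun x hx => g x (Finset.mem_of_mem_erase hx)⟩
          by_cases hH : e ∈ H
          · right; convert b; exact Finset.insert_erase hH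
          · left; rwa [Finset.erase_eq_of_notMem hH]
      · exact ⟨G, a, H, b, t G c fun h => w (f e h), t H d fun h => w (g e h), k, f, g⟩
    have h3 := measureReal_union_add_inter (μ := P p ι) (s := Box F (one e 𝓐) 𝓑) d2.meas
    have h4 := measureReal_mono (μ := P p ι) (show Box F 𝓐 𝓑 ⊆ Box F (one e 𝓐) 𝓑 ∩ Box F 𝓐 (one e 𝓑)
      from fun ω ⟨G, a, H, b, c⟩ => ⟨⟨G, Or.inl a, H, b, c⟩, G, a, H, Or.inl b, c⟩)
    refine (measureReal_mono (μ := P p ι) h2 (measure_ne_top _ _)).trans ?_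
    rw [h1, Finset.coe_insert, up_real he, up_real he]
    have h5 := measureReal_mono (μ := P p ι) (show Box F (one e 𝓐) 𝓑 ∪ Box F 𝓐 (one e 𝓑) ⊆
      Box F (one e 𝓐) (one e 𝓑) by
        rintro ω (⟨G, a, H, b, c⟩ | ⟨G, a, H, b, c⟩)
        exacts [⟨G, a, H, Or.inl b, c⟩, ⟨G, Or.inl a, H, b, c⟩])
    exact alg2 p.2.1 p.2.2 (ih 𝓐 𝓑) (ih (one e 𝓐) 𝓑) (ih 𝓐 (one e 𝓑))
      (h5.trans (ih _ _)) h3 h4

lemma exh (ι : Type) [Countable ι] : ∃ F : ℕ → Finset ι, Monotone F ∧ ∀ G : Finset ι, ∃ n, G ⊆ F n := by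
  classical
  obtain ⟨g, hg⟩ := exists_surjective_nat (Finset ι)
  refine ⟨fun n => (Finset.range (n + 1)).biUnion g, fun a b h =>
    Finset.biUnion_subset_biUnion_of_subset_left _ (by simpa), fun G => ?_⟩
  obtain ⟨n, rfl⟩ := hg G
  exact ⟨n, Finset.subset_biUnion_of_mem g (by simp)⟩

lemma real_le {a b c : ℝ≥0∞} (ha : a ≠ ⊤) (hb : b ≠ ⊤) (hc : c ≠ ⊤) :
    (a.toReal * b.toReal ≤ c.toReal → a * b ≤ c) ∧ (c.toReal ≤ a.toReal * b.toReal → c ≤ a * b) := by
  rw [← ENNReal.toReal_mul, ENNReal.toReal_le_toReal (ENNReal.mul_ne_top ha hb) hc,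
    ENNReal.toReal_le_toReal hc (ENNReal.mul_ne_top ha hb)]
  exact ⟨id, id⟩

def Forces (A : Set (ι → Bool)) : Set (Finset ι) := {G | ∀ ω, Op G ω → ω ∈ A}

/-- increasing events witnessed by finitely many open edges of `E` -/
def Inc (E : Set ι) (A : Set (ι → Bool)) : Prop := A ⊆ Up E (Forces A)

omit [Countable ι] in
lemma up_sub (E : Set ι) (A : Set (ι → Bool)) : Up E (Forces A) ⊆ A :=
  fun ω ⟨_, a, _, c⟩ => a ω c

lemma Inc.dep {E : Set ι} {A : Set (ι → Bool)} (h : Inc E A) : Dep E A := by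
  rw [← (up_sub E A).antisymm h]; exact dep_up _ _

lemma bk (A B : Set (ι → Bool)) : P p ι (Box univ (Forces A) (Forces B)) ≤ P p ι A * P p ι B := by
  classical
  obtain ⟨F, hF, hF'⟩ := exh ι
  have : Box univ (Forces A) (Forces B) = ⋃ n, Box (F n) (Forces A) (Forces B) := by
    refine Subset.antisymm ?_ (iUnion_subset fun n ω ⟨G, a, H, b, _, _, c⟩ =>
      ⟨G, a, H, b, subset_univ _, subset_univ _, c⟩)
    rintro ω ⟨G, a, H, b, -, -, c⟩
    obtain ⟨n, hn⟩ := hF' (G ∪ H)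
    exact mem_iUnion.2 ⟨n, G, a, H, b, Finset.coe_subset.2 (Finset.subset_union_left.trans hn),
      Finset.coe_subset.2 (Finset.subset_union_right.trans hn), c⟩
  have hm : Monotone fun n => Box (F n) (Forces A) (Forces B) := by
    rintro a b h ω ⟨G, x, H, y, z, w, k⟩
    exact ⟨G, x, H, y, z.trans (Finset.coe_subset.2 (hF h)), w.trans (Finset.coe_subset.2 (hF h)), k⟩
  rw [this, hm.measure_iUnion]
  refine iSup_le fun n => ?_
  exact ((real_le (measure_ne_top _ _) (measure_ne_top _ _) (measure_ne_top _ _)).2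
    (bk_fin (F n) _ _)).trans (mul_le_mul' (measure_mono (up_sub _ _)) (measure_mono (up_sub _ _)))

lemma up_cont (F : Finset ι) : ∀ 𝓐 : Set (Finset ι),
    Continuous fun p : unitInterval => (P p ι).real (Up F 𝓐) := by
  classical
  induction F using Finset.induction_on with
  | empty =>
    intro 𝓐
    rw [Finset.coe_empty]
    rcases up_empty 𝓐 with h | h <;> simp [h, continuous_const]
  | insert e F he ih =>
    intro 𝓐
    simp only [Finset.coe_insert, up_real (show e ∉ (F : Set ι) from he)]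
    have := ih 𝓐
    have := ih (one e 𝓐)
    fun_prop

end Pool.Agent.H.MP_950aae_pr
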