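import Mathlib

namespace Pool.Agent.H.MP_950aae_pr

open MeasureTheory
open scoped ENNReal

/-- Bernoulli law on `Bool`. -/
noncomputable def nu (p : unitInterval) : Measure Bool :=
  ENNReal.ofReal p • Measure.dirac true + ENNReal.ofReal (1 - p) • Measure.dirac false

/-- Product Bernoulli measure. -/
noncomputable def P (p : unitInterval) (ι : Type) : Measure (ι → Bool) :=
  Measure.infinitePi fun _ : ι => nu p

/-- `xy` is an open edge. -/
def Opn {V : Type} (G : SimpleGraph V) (ω : G.edgeSet → Bool) (x y : V) : Prop :=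
  ∃ h : G.Adj x y, ω ⟨s(x, y), h⟩ = true

/-- The open subgraph contains a copy of the full binary tree. -/
def TreeEvent {V : Type} (G : SimpleGraph V) : Set (G.edgeSet → Bool) :=
  {ω | ∃ f : List Bool → V, Function.Injective f ∧ ∀ w b, Opn G ω (f w) (f (b :: w))}

/-- The critical value `p_bt`. -/
noncomputable def pbt {V : Type} (G : SimpleGraph V) : unitInterval :=
  sInf {p | P p G.edgeSet (TreeEvent G) = 1}

/-- Relations `x ^ k`, `y ^ 2`, `(x y) ^ 3` with `x = of true`, `y = of false`. -/
def rels (k : ℕ) : Set (FreeGroup Bool) :=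
  {FreeGroup.of true ^ k, FreeGroup.of false ^ 2, (FreeGroup.of true * FreeGroup.of false) ^ 3}

/-- The rotation group of the `k`-regular triangulation. -/
abbrev Gam (k : ℕ) : Type := PresentedGroup (rels k)

/-- Vertices: cosets of the vertex stabiliser `⟨x⟩`. -/
abbrev Vert (k : ℕ) : Type := Gam k ⧸ Subgroup.zpowers (PresentedGroup.of true : Gam k)

/-- The `k`-regular triangulation: `g⟨x⟩` is joined to `g y⟨x⟩`. -/
def Tri (k : ℕ) : SimpleGraph (Vert k) :=
  SimpleGraph.fromRel fun u v =>
    ∃ g : Gam k, u = QuotientGroup.mk g ∧ v = QuotientGroup.mk (g * PresentedGroup.of false)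

end Pool.Agent.H.MP_950aae_pr
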