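import Pool.Agent.H.MP_950aae_pr.Perc

namespace Pool.Agent.H.MP_950aae_pr

open Real

abbrev R3 : Type := ℝ × ℝ × ℝ

noncomputable def rotF (a : ℝ) (v : R3) : R3 :=
  (v.1, cos a * v.2.1 - sin a * v.2.2, sin a * v.2.1 + cos a * v.2.2)

lemma rotF_add (a b : ℝ) (v : R3) : rotF a (rotF b v) = rotF (a + b) v := by
  simp only [rotF, cos_add, sin_add, Prod.mk.injEq, true_and]
  constructor <;> ring

lemma rotF_zero (v : R3) : rotF 0 v = v := by simp [rotF]

noncomputable def rot (a : ℝ) : Equiv.Perm R3 :=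
  ⟨rotF a, rotF (-a), fun v => by simp [rotF_add, rotF_zero], fun v => by simp [rotF_add, rotF_zero]⟩

lemma rot_pow (a : ℝ) (n : ℕ) : rot a ^ n = rot (n * a) := by
  induction n with
  | zero => ext1 v; simp [rot, rotF_zero]
  | succ n ih =>
    ext1 v
    rw [pow_succ, ih]
    change rotF _ (rotF _ v) = rotF _ v
    rw [rotF_add]; congr 1; push_cast; ring

def flipF (h : ℝ) (v : R3) : R3 := (h * v.1 - (h ^ 2 - 1) * v.2.1, v.1 - h * v.2.1, -v.2.2)

lemma flipF_inv (h : ℝ) : Function.Involutive (flipF h) := by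
  rintro ⟨t, x, y⟩
  simp only [flipF, Prod.mk.injEq]
  refine ⟨by ring, by ring, by ring⟩

def flp (h : ℝ) : Equiv.Perm R3 := (flipF_inv h).toPerm

lemma cube {h a : ℝ} (hh : h * (1 - cos a) = cos a) : (rot a * flp h) ^ 3 = 1 := by
  ext1 ⟨t, x, y⟩
  change rotF a (flipF h (rotF a (flipF h (rotF a (flipF h (t, x, y)))))) = (t, x, y)
  have hs := sin_sq_add_cos_sq a
  simp only [rotF, flipF, Prod.mk.injEq]
  generalize cos a = c at *
  generalize sin a = s at *
  refine ⟨?_, ?_, ?_⟩ <;> grind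

def Cone (h L : ℝ) (v : R3) : Prop :=
  0 < v.1 ∧ (h ^ 2 - 1) * (v.2.1 ^ 2 + v.2.2 ^ 2) ≤ v.1 ^ 2 ∧ |v.2.2| ≤ L * (-v.2.1)

lemma pingpong {h L m C S : ℝ} (hh : 143 / 100 ≤ h) (hL : 0 < L) (hm0 : 0 < m)
    (hm : 1 ≤ m * ((7 / 10 + 1 / L) * h)) (hC : 0 ≤ C) (hS : 0 ≤ S) (h2 : m * C < S)
    (h3 : m * (C + L * S) ≤ L * C - S) (hCS : S ^ 2 + C ^ 2 = 1) {a ε : ℝ} (hε : ε = 1 ∨ ε = -1)
    (ha : cos a = -C) (ha' : sin a = ε * S) {v : R3} (hv : Cone h L v) :
    Cone h L (rotF a (flipF h v)) ∧ 0 < ε * (rotF a (flipF h v)).2.2 := by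
  obtain ⟨t, x, y⟩ := v
  obtain ⟨t0, hQ, hy⟩ := hv
  simp only [Cone, rotF, flipF, ha, ha'] at *
  have hx : 0 ≤ -x := by
    by_contra hn
    have := mul_neg_of_pos_of_neg hL (not_le.1 hn)
    linarith [abs_nonneg y]
  have hσ : 49 / 100 * h ^ 2 ≤ h ^ 2 - 1 := by nlinarith
  have e1 : 7 / 10 * h * |y| ≤ t := by
    apply abs_le_of_sq_le_sq' _ t0.le |>.2
    rw [mul_pow, sq_abs]
    nlinarith [sq_nonneg x, sq_nonneg y, sq_nonneg h]
  have e2 : 1 / L * h * |y| ≤ -(h * x) := by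
    have : 1 / L * |y| ≤ -x := by rw [one_div, inv_mul_le_iff₀ hL]; exact hy
    nlinarith
  have e3 : 0 < t - h * x := by nlinarith
  have e4 : |y| ≤ m * (t - h * x) := by nlinarith [abs_nonneg y]
  set X := t - h * x with hX
  obtain ⟨y1, y2⟩ := abs_le.1 e4
  have e5 : 0 < S * X - C * |y| := by nlinarith
  have e6 : (C + L * S) * |y| ≤ (L * C - S) * X := by
    have : 0 ≤ C + L * S := by positivity
    nlinarith
  have b1 := le_abs_self y
  have b2 := neg_abs_le y
  have hLS : 0 ≤ L * S := by positivity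
  refine ⟨⟨by nlinarith, ?_, ?_⟩, ?_⟩
  · have : (-C * X - ε * S * -y) ^ 2 + (ε * S * X + -C * -y) ^ 2 = X ^ 2 + y ^ 2 := by
      rcases hε with rfl | rfl <;> linear_combination (X ^ 2 + y ^ 2) * hCS
    rw [this, hX]; nlinarith
  · rw [abs_le]
    rcases hε with rfl | rfl <;> constructor <;> nlinarith
  · rcases hε with rfl | rfl <;> nlinarith

lemma free {h L : ℝ} (A : Bool → Equiv.Perm R3)
    (hA : ∀ b v, Cone h L v → Cone h L (A b v) ∧ 0 < (if b then 1 else -1) * (A b v).2.2) :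
    Function.Injective fun l : List Bool => (l.map A).prod (1, 0, 0) := by
  have h0 : ∀ l : List Bool, Cone h L ((l.map A).prod (1, 0, 0)) := by
    intro l
    induction l with
    | nil => simp [Cone]
    | cons b l ih => exact (hA b _ ih).1
  intro l
  induction l with
  | nil =>
    rintro (_ | ⟨b, l⟩) e
    · rfl
    · have := (hA b _ (h0 l)).2
      simp only [List.map_cons, List.prod_cons, Equiv.Perm.mul_apply, List.map_nil, List.prod_nil,
        Equiv.Perm.one_apply] at e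
      rw [← e] at this; simp at this
  | cons b l ih =>
    rintro (_ | ⟨b', l'⟩) e
    · have := (hA b _ (h0 l)).2
      simp only [List.map_cons, List.prod_cons, Equiv.Perm.mul_apply, List.map_nil, List.prod_nil,
        Equiv.Perm.one_apply] at e
      rw [e] at this; simp at this
    · simp only [List.map_cons, List.prod_cons, Equiv.Perm.mul_apply, List.map_nil, List.prod_nil,
        Equiv.Perm.one_apply] at e
      have a1 := (hA b _ (h0 l)).2
      have a2 := (hA b' _ (h0 l')).2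
      rw [← e] at a2
      have : b = b' := by
        cases b <;> cases b' <;> simp at a1 a2 ⊢ <;> linarith
      subst this
      rw [ih ((A b).injective e)]

end Pool.Agent.H.MP_950aae_pr
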