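import Pool.Agent.H.MP_950aae_pr.BK

namespace Pool.Agent.H.MP_950aae_pr

open MeasureTheory Filter Topology Set
open scoped ENNReal

variable {V : Type} {G : SimpleGraph V}

def Tr (G : SimpleGraph V) (ω : G.edgeSet → Bool) (n : ℕ) (f : List Bool → V) : Prop :=
  InjOn f {w | w.length ≤ n} ∧ ∀ w b, w.length < n → Opn G ω (f w) (f (b :: w))

def An (G : SimpleGraph V) (n : ℕ) (v : V) : Set (G.edgeSet → Bool) :=
  {ω | ∃ f, f [] = v ∧ Tr G ω n f}

lemma wit_fin (n : ℕ) (f : List Bool → V) :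
    {e : G.edgeSet | ∃ w b, w.length < n ∧ e.1 = s(f w, f (b :: w))}.Finite := by
  refine Finite.subset (Finite.preimage Subtype.val_injective.injOn
    (((List.finite_length_lt Bool n).prod (finite_univ (α := Bool))).image
      fun q => s(f q.1, f (q.2 :: q.1)))) ?_
  rintro e ⟨w, b, hw, he⟩
  exact ⟨(w, b), ⟨hw, trivial⟩, he.symm⟩

noncomputable def wit (G : SimpleGraph V) (n : ℕ) (f : List Bool → V) : Finset G.edgeSet :=
  (wit_fin (G := G) n f).toFinset

lemma mem_wit {n : ℕ} {f : List Bool → V} {e : G.edgeSet} :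
    e ∈ wit G n f ↔ ∃ w b, w.length < n ∧ e.1 = s(f w, f (b :: w)) := by simp [wit]

lemma wit_op {ω : G.edgeSet → Bool} {n : ℕ} {f : List Bool → V} (h : Tr G ω n f) :
    Op (wit G n f) ω := by
  intro e he
  obtain ⟨w, b, hw, he⟩ := mem_wit.1 he
  obtain ⟨ha, hb⟩ := h.2 w b hw
  rwa [show e = ⟨_, ha⟩ from Subtype.ext he]

lemma wit_forces {ω : G.edgeSet → Bool} {n : ℕ} {f : List Bool → V} (h : Tr G ω n f) :
    wit G n f ∈ Forces (An G n (f [])) := by
  intro ω' h'
  refine ⟨f, rfl, h.1, fun w b hw => ?_⟩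
  obtain ⟨ha, -⟩ := h.2 w b hw
  exact ⟨ha, h' _ (mem_wit.2 ⟨w, b, hw, rfl⟩)⟩

def Ball (G : SimpleGraph V) (v : V) : ℕ → Set V
  | 0 => {v}
  | n + 1 => Ball G v n ∪ ⋃ x ∈ Ball G v n, G.neighborSet x

lemma Ball_fin (hf : ∀ x, (G.neighborSet x).Finite) (v : V) (n : ℕ) : (Ball G v n).Finite := by
  induction n with
  | zero => exact finite_singleton v
  | succ n ih => exact ih.union (ih.biUnion fun x _ => hf x)

lemma Ball_mono (v : V) : Monotone (Ball G v) :=
  monotone_nat_of_le_succ fun _ => subset_union_left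

lemma mem_Ball {ω : G.edgeSet → Bool} {n : ℕ} {f : List Bool → V} (h : Tr G ω n f) :
    ∀ w : List Bool, w.length ≤ n → f w ∈ Ball G (f []) w.length := by
  intro w
  induction w with
  | nil => intro _; rfl
  | cons b w ih =>
    intro hw
    exact Or.inr (mem_biUnion (ih (by simp at hw; omega)) (h.2 w b (by simpa using hw)).1)

lemma An_eq (hf : ∀ x, (G.neighborSet x).Finite) (n : ℕ) (v : V) :
    ∃ F : Finset G.edgeSet, An G n v = Up F (Forces (An G n v)) := by
  have : {e : G.edgeSet | ∃ x ∈ Ball G v n, ∃ y ∈ Ball G v n, e.1 = s(x, y)}.Finite := by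
    refine Finite.subset (Finite.preimage Subtype.val_injective.injOn
      (((Ball_fin hf v n).prod (Ball_fin hf v n)).image fun q => s(q.1, q.2))) ?_
    rintro e ⟨x, hx, y, hy, he⟩
    exact ⟨(x, y), ⟨hx, hy⟩, he.symm⟩
  refine ⟨this.toFinset, subset_antisymm ?_ (up_sub _ _)⟩
  rintro ω ⟨f, rfl, h⟩
  refine ⟨wit G n f, wit_forces h, fun e he => ?_, wit_op h⟩
  obtain ⟨w, b, hw, he⟩ := mem_wit.1 he
  simp only [Finite.coe_toFinset, mem_ofPred_eq]
  exact ⟨_, Ball_mono _ hw.le (mem_Ball h w hw.le), _, Ball_mono _ hw (mem_Ball h (b :: w) hw), he⟩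

lemma An_anti (v : V) : Antitone fun n => An G n v := by
  rintro a b hab ω ⟨f, h0, h1, h2⟩
  exact ⟨f, h0, h1.mono fun w hw => le_trans hw hab, fun w c hw => h2 w c (hw.trans_le hab)⟩

lemma An_succ (n : ℕ) (v : V) : An G (n + 1) v ⊆ ⋃ u ∈ G.neighborSet v, ⋃ u' ∈ G.neighborSet v,
    Box univ (Forces (An G n u)) (Forces (An G n u')) := by
  rintro ω ⟨f, rfl, h⟩
  have hc : ∀ c, Tr G ω n (fun w => f (w ++ [c])) := fun c =>
    ⟨fun a ha b hb e => List.append_cancel_right (h.1 (by simpa using ha) (by simpa using hb) e),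
      fun w b hw => h.2 (w ++ [c]) b (by simpa using hw)⟩
  refine mem_biUnion (h.2 [] false (by simp)).1 (mem_biUnion (h.2 [] true (by simp)).1
    ⟨_, wit_forces (hc false), _, wit_forces (hc true), subset_univ _, subset_univ _, ?_,
      wit_op (hc false), wit_op (hc true)⟩)
  rw [Finset.disjoint_left]
  intro e h1 h2
  obtain ⟨w, b, hw, e1⟩ := mem_wit.1 h1
  obtain ⟨w', b', hw', e2⟩ := mem_wit.1 h2
  have key : ∀ a a' : List Bool, a.length ≤ n → a'.length ≤ n →
      f (a ++ [false]) ≠ f (a' ++ [true]) := by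
    intro a a' ha ha' e
    have := h.1 (by simpa using ha) (by simpa using ha') e
    simpa using congrArg List.getLast? this
  rcases Sym2.eq_iff.1 (e1.symm.trans e2) with ⟨k, -⟩ | ⟨k, -⟩
  · exact key w w' hw.le hw'.le k
  · exact key w (b' :: w') hw.le hw' k

lemma koenig (hf : ∀ x, (G.neighborSet x).Finite) (v : V) : ⋂ n, An G n v ⊆ TreeEvent G := by
  intro ω hω
  choose f h0 h using mem_iInter.1 hω
  let U : Ultrafilter ℕ := hyperfilter ℕ
  have hU : ∀ m, ∀ᶠ n in (U : Filter ℕ), m ≤ n := fun m =>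
    Nat.hyperfilter_le_atTop (eventually_ge_atTop m)
  have : ∀ w : List Bool, ∃ x, ∀ᶠ n in (U : Filter ℕ), f n w = x := by
    intro w
    obtain ⟨x, -, hx⟩ := Ultrafilter.eq_pure_of_finite_mem (f := U.map fun n => f n w)
      (Ball_fin hf v w.length) (by
        change ∀ᶠ n in (U : Filter ℕ), f n w ∈ Ball G v w.length
        filter_upwards [hU w.length] with n hn
        have := mem_Ball (h n) w hn
        rwa [h0] at this)
    exact ⟨x, by have : {x} ∈ U.map fun n => f n w := by rw [hx]; exact singleton_mem_pure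
                 exact this⟩
  choose g hg using this
  refine ⟨g, fun a b hab => ?_, fun w b => ?_⟩
  · obtain ⟨n, h1, h2, h3, h4⟩ := ((hg a).and ((hg b).and ((hU a.length).and (hU b.length)))).exists
    exact (h n).1 h3 h4 (by rw [h1, h2, hab])
  · obtain ⟨n, h1, h2, h3⟩ := ((hg w).and ((hg (b :: w)).and (hU (w.length + 1)))).exists
    rw [← h1, ← h2]; exact (h n).2 w b h3

theorem perc [Countable V] (D : ℕ) (hf : ∀ x, (G.neighborSet x).Finite)
    (hD : ∀ x, (G.neighborSet x).ncard ≤ D) (o : V) (ht : ∀ v, ∃ φ : G ≃g G, φ o = v)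
    (t : List Bool → V) (t1 : Function.Injective t) (t2 : ∀ w b, G.Adj (t w) (t (b :: w))) :
    0 < P (pbt G) G.edgeSet (TreeEvent G) := by
  have hmeas : ∀ n v, MeasurableSet (An G n v) := fun n v => by
    obtain ⟨F, hF⟩ := An_eq hf n v
    rw [hF]; exact (dep_up _ _).meas
  have htr : ∀ p n v, P p G.edgeSet (An G n v) ≤ P p G.edgeSet (An G n o) := by
    intro p n v
    obtain ⟨φ, rfl⟩ := ht v
    rw [← P_map φ.mapEdgeSet.injective (hmeas n o)]
    refine measure_mono ?_
    rintro ω ⟨f, h0, h1, h2⟩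
    refine ⟨fun w => φ.symm (f w), by simp [h0], φ.symm.injective.comp_injOn h1, fun w b hw => ?_⟩
    obtain ⟨ha, hb⟩ := h2 w b hw
    refine ⟨φ.symm.map_adj_iff.2 ha, ?_⟩
    rw [← hb]
    change ω _ = ω _
    congr 1
    apply Subtype.ext
    simp [SimpleGraph.Iso.mapEdgeSet, SimpleGraph.Hom.mapEdgeSet]
  have hrec : ∀ p n, (P p G.edgeSet).real (An G (n + 1) o) ≤
      D ^ 2 * (P p G.edgeSet).real (An G n o) ^ 2 := by
    intro p n
    have h1 : P p G.edgeSet (An G (n + 1) o) ≤ D ^ 2 * P p G.edgeSet (An G n o) ^ 2 := by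
      have hc : ((hf o).toFinset.card : ℝ≥0∞) ≤ D := by
        rw [← ncard_eq_toFinset_card _ (hf o)]; exact_mod_cast hD o
      refine (measure_mono (An_succ n o)).trans ?_
      simp only [← (hf o).mem_toFinset]
      refine (measure_biUnion_finset_le _ _).trans ?_
      refine (Finset.sum_le_card_nsmul _ _ (D * P p G.edgeSet (An G n o) ^ 2) fun u _ => ?_).trans ?_
      · refine (measure_biUnion_finset_le _ _).trans ?_
        refine (Finset.sum_le_card_nsmul _ _ (P p G.edgeSet (An G n o) ^ 2) fun u' _ => ?_).trans ?_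
        · rw [pow_two]; exact (bk _ _).trans (mul_le_mul' (htr p n u) (htr p n u'))
        · rw [nsmul_eq_mul]; gcongr
      · rw [nsmul_eq_mul, pow_two (D : ℝ≥0∞), mul_assoc]; gcongr
    have h2 := ENNReal.toReal_mono (by finiteness) h1
    simpa [Measure.real] using h2
  have hlim : ∀ p, Tendsto (fun n => P p G.edgeSet (An G n o)) atTop
      (𝓝 (P p G.edgeSet (⋂ n, An G n o))) := fun p =>
    tendsto_measure_iInter_atTop (fun n => (hmeas n o).nullMeasurableSet) (An_anti o)
      ⟨0, measure_ne_top _ _⟩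
  have hzero : ∀ p n, D ^ 2 * (P p G.edgeSet).real (An G n o) < 1 →
      P p G.edgeSet (TreeEvent G) = 0 := by
    intro p n hn
    set x := D ^ 2 * (P p G.edgeSet).real (An G n o)
    have hx : 0 ≤ x := by positivity
    have h1 : ∀ m, (P p G.edgeSet).real (An G (n + m) o) ≤ x ^ m := by
      intro m
      induction m with
      | zero => simp
      | succ m ih =>
        refine (hrec p (n + m)).trans ?_
        have := measureReal_mono (μ := P p G.edgeSet) (An_anti (G := G) o (Nat.le_add_right n m))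
        rw [pow_succ' x, pow_two ((P p G.edgeSet).real _), ← mul_assoc]
        exact mul_le_mul (mul_le_mul_of_nonneg_left this (by positivity)) ih (by positivity) hx
    have hsub : TreeEvent G ⊆ ⋃ v, ⋂ m, An G m v := by
      rintro ω ⟨f, h1, h2⟩
      exact mem_iUnion.2 ⟨f [], mem_iInter.2 fun m => ⟨f, rfl, h1.injOn, fun w b _ => h2 w b⟩⟩
    refine measure_mono_null hsub (measure_iUnion_null fun v => ?_)
    have h2 : ∀ m, (P p G.edgeSet).real (⋂ m, An G m v) ≤ x ^ m := fun m =>
      le_trans (ENNReal.toReal_mono (measure_ne_top _ _)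
        ((measure_mono (iInter_subset _ (n + m))).trans (htr p _ v))) (h1 m)
    have h3 := ge_of_tendsto' (tendsto_pow_atTop_nhds_zero_of_lt_one hx hn) h2
    exact (measureReal_eq_zero_iff (measure_ne_top _ _)).1 (le_antisymm h3 measureReal_nonneg)
  rw [pos_iff_ne_zero]
  intro h0
  have h1 : P (pbt G) G.edgeSet (⋂ n, An G n o) = 0 := measure_mono_null (koenig hf o) h0
  have h2 := ((ENNReal.tendsto_toReal ENNReal.zero_ne_top).comp (h1 ▸ hlim (pbt G))).const_mul
    ((D : ℝ) ^ 2)
  obtain ⟨n, hn⟩ := (h2.eventually (gt_mem_nhds (by simp : _ < (1:ℝ)))).exists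
  have hne : {p | P p G.edgeSet (TreeEvent G) = 1}.Nonempty := by
    refine ⟨1, le_antisymm prob_le_one ?_⟩
    have a1 : ∀ᵐ ω ∂P 1 G.edgeSet, ∀ e, ω e = true := by
      refine ae_all_iff.2 fun e => ?_
      rw [ae_iff]
      simpa using P_false (p := 1) e
    rw [← measure_univ (μ := P 1 G.edgeSet)]
    refine measure_mono_ae ?_
    filter_upwards [a1] with ω hω _
    exact ⟨t, t1, fun w b => ⟨t2 w b, hω _⟩⟩
  obtain ⟨F, hF⟩ := An_eq hf n o
  have hc : Continuous fun p : unitInterval => (D : ℝ) ^ 2 * (P p G.edgeSet).real (An G n o) := by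
    rw [hF]; exact continuous_const.mul (up_cont F _)
  obtain ⟨p, hp1, hp2⟩ := mem_closure_iff.1 (sInf_mem_closure hne) _
    (isOpen_lt hc continuous_const) hn
  have := hzero p n hp1
  rw [hp2] at this
  exact one_ne_zero this

end Pool.Agent.H.MP_950aae_pr
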